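import Mathlib

/-!
# Equal-cardinality ball partitioning: feasibility and the constants `b_i`
-/

namespace Pool.Agent.MP_bdabc0_co

/-- `BP(d, C; w)` is feasible: the multiset containing `d` copies of each `w i` splits into
multisets `B i`, one for each bin, each of size exactly `d` and of total weight at most `C i`. -/
def Feasible {n : ℕ} (d : ℕ) (C : Fin n → ℤ) (w : Fin n → ℕ) : Prop :=
  ∃ B : Fin n → Multiset ℕ,
    ∑ i, B i = d • (Finset.univ.val.map w) ∧
      ∀ i, Multiset.card (B i) = d ∧ (((B i).sum : ℕ) : ℤ) ≤ C i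

/-- The conjugate partition of a tuple `l`: its `j`-th entry (`j = 1, …, max l`) is the number of
entries of `l` that are at least `j`. -/
def conj (l : List ℕ) : List ℕ :=
  (List.range (l.foldr max 0)).map fun j => l.countP fun x => j + 1 ≤ x

/-- The list `h_1 > ⋯ > h_k` of the distinct entries of the conjugate partition that are smaller
than the length `r` of `l`. -/
def heights (l : List ℕ) : List ℕ :=
  ((conj l).filter fun h => h < l.length).dedup

/-- The multiplicity `a` of the value `h` in the conjugate partition. -/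
def mult (l : List ℕ) (h : ℕ) : ℤ :=
  ((conj l).count h : ℕ)

/-- `b(λ) = ∑_{t=1}^k (h_{t-1} - h_t)(a_t - 1) + (h_k - 1)(a_k - 1)` with `h_0 = r`,
and `b(λ) = 0` if `k = 0`. -/
def bConst (l : List ℕ) : ℤ :=
  (((l.length :: heights l).zip (heights l)).map
      fun p => ((p.1 : ℤ) - (p.2 : ℤ)) * (mult l p.2 - 1)).sum +
    match (heights l).getLast? with
    | none => 0
    | some h => ((h : ℤ) - 1) * (mult l h - 1)

/-- `b_i = b(w_i, …, w_n)`. -/
def bSuffix {n : ℕ} (w : Fin n → ℕ) (i : Fin n) : ℤ :=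
  bConst ((List.ofFn w).drop i)

/-- The set of non-increasing integer tuples `C` with
`C_i + ⋯ + C_n ≥ d (w_i + ⋯ + w_n) + c_i` for all `i`. -/
def region {n : ℕ} (d : ℕ) (w : Fin n → ℕ) (c : Fin n → ℤ) : Set (Fin n → ℤ) :=
  {C | Antitone C ∧
    ∀ i, (d : ℤ) * (∑ j ∈ Finset.Ici i, (w j : ℤ)) + c i ≤ ∑ j ∈ Finset.Ici i, C j}

end Pool.Agent.MP_bdabc0_co
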