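import Pool.Agent.MP_bdabc0_co.Base

/-!
# Feasibility on the relaxed region for the weights `(7, 6, 4, 4, 0)`
-/

namespace Pool.Agent.MP_bdabc0_co

def c5 : Fin 5 → ℤ := ![4, 5, 6, 3, 0]

theorem bSuffix_w5 : bSuffix w5 = ![5, 5, 6, 3, 0] := by
  funext i
  fin_cases i <;> decide +kernel

/-- base case in ascending order, arbitrary total -/
theorem base_sorted (e : ℕ) : ∀ (x0 x1 x2 x3 x4 : ℕ), x0 ≤ x1 → x1 ≤ x2 → x2 ≤ x3 → x3 ≤ x4 →
    19 ≤ x0 + x1 → 38 ≤ x0 + x1 + x2 → 61 ≤ x0 + x1 + x2 + x3 →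
    x0 + x1 + x2 + x3 + x4 = 88 + e → Feasible 4 ![(x0 : ℤ), x1, x2, x3, x4] w5 := by
  induction e with
  | zero =>
    intro x0 x1 x2 x3 x4 h01 h12 h23 h34 h2 h3 h4 h5
    exact base_exact x0 x1 x2 x3 x4 h01 h12 h23 h34 h2 h3 h4 h5
  | succ e ih =>
    intro x0 x1 x2 x3 x4 h01 h12 h23 h34 h2 h3 h4 h5
    by_cases c4 : x3 < x4
    · refine feasible_mono _ _ _ _ ?_ (ih x0 x1 x2 x3 (x4 - 1) h01 h12 h23 (by omega) h2 h3 h4
        (by omega))
      intro i
      fin_cases i <;> simp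
    by_cases c3 : x2 < x3
    · by_cases d3 : 62 ≤ x0 + x1 + x2 + x3
      · refine feasible_mono _ _ _ _ ?_ (ih x0 x1 x2 (x3 - 1) x4 h01 h12 (by omega) (by omega) h2 h3
          (by omega) (by omega))
        intro i
        fin_cases i <;> simp
      · omega
    by_cases c2 : x1 < x2
    · refine feasible_mono _ _ _ _ ?_ (ih x0 x1 (x2 - 1) x3 x4 h01 (by omega) (by omega) (by omega)
        h2 (by omega) (by omega) (by omega))
      intro i
      fin_cases i <;> simp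
    by_cases c1 : x0 < x1
    · refine feasible_mono _ _ _ _ ?_ (ih x0 (x1 - 1) x2 x3 x4 (by omega) (by omega) (by omega)
        (by omega) (by omega) (by omega) (by omega) (by omega))
      intro i
      fin_cases i <;> simp
    · refine feasible_mono _ _ _ _ ?_ (ih (x0 - 1) x1 x2 x3 x4 (by omega) (by omega) (by omega)
        (by omega) (by omega) (by omega) (by omega) (by omega))
      intro i
      fin_cases i <;> simp

def Wc (k : ℕ) : ℤ := [0, 0, 4, 8, 14, 21].getD k 0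

def cc (k : ℕ) : ℤ := [0, 0, 3, 6, 5, 4].getD k 0

/-- the symmetric form of the relaxed region -/
def SymR (d : ℕ) (C : Fin 5 → ℤ) : Prop :=
  ∀ I : Finset (Fin 5), (d : ℤ) * Wc I.card + cc I.card ≤ ∑ i ∈ I, C i

theorem SymR.perm {d : ℕ} {C : Fin 5 → ℤ} (h : SymR d C) (σ : Equiv.Perm (Fin 5)) :
    SymR d (C ∘ σ) := by
  intro I
  have := h (I.map σ.toEmbedding)
  rw [Finset.card_map, Finset.sum_map] at this
  exact this

theorem forall_finset5 (P : Finset (Fin 5) → Prop)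
    (h : ∀ b0 b1 b2 b3 b4 : Bool,
      P (Finset.univ.filter fun i => ![b0, b1, b2, b3, b4] i = true)) : ∀ I, P I := by
  intro I
  have := h (decide (0 ∈ I)) (decide (1 ∈ I)) (decide (2 ∈ I)) (decide (3 ∈ I)) (decide (4 ∈ I))
  convert this using 1
  ext i
  fin_cases i <;> simp

theorem symR_of (d : ℕ) (x0 x1 x2 x3 x4 : ℤ)
    (h : ∀ b0 b1 b2 b3 b4 : Bool,
      (d : ℤ) * Wc (b0.toNat + b1.toNat + b2.toNat + b3.toNat + b4.toNat) +
        cc (b0.toNat + b1.toNat + b2.toNat + b3.toNat + b4.toNat) ≤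
      (if b0 then x0 else 0) + (if b1 then x1 else 0) + (if b2 then x2 else 0) +
        (if b3 then x3 else 0) + (if b4 then x4 else 0)) :
    SymR d ![x0, x1, x2, x3, x4] := by
  refine forall_finset5 _ fun b0 b1 b2 b3 b4 => ?_
  have h1 : (Finset.univ.filter fun i => ![b0, b1, b2, b3, b4] i = true).card =
      b0.toNat + b1.toNat + b2.toNat + b3.toNat + b4.toNat := by
    revert b0 b1 b2 b3 b4
    decide
  rw [h1, Finset.sum_filter, Fin.sum_univ_five]
  exact h b0 b1 b2 b3 b4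

theorem SymR.prefixes {d : ℕ} {C : Fin 5 → ℤ} (h : SymR d C) :
    0 ≤ C 0 ∧ 4 * (d : ℤ) + 3 ≤ C 0 + C 1 ∧ 8 * (d : ℤ) + 6 ≤ C 0 + C 1 + C 2 ∧
      14 * (d : ℤ) + 5 ≤ C 0 + C 1 + C 2 + C 3 ∧
      21 * (d : ℤ) + 4 ≤ C 0 + C 1 + C 2 + C 3 + C 4 := by
  have h1 := h {0}
  have h2 := h {0, 1}
  have h3 := h {0, 1, 2}
  have h4 := h {0, 1, 2, 3}
  have h5 := h {0, 1, 2, 3, 4}
  simp [Wc, cc] at h1 h2 h3 h4 h5
  refine ⟨h1, by linarith, by linarith, by linarith, by linarith⟩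

theorem feasible_of_symR (d : ℕ) (hd : 4 ≤ d) : ∀ C : Fin 5 → ℤ, SymR d C → Feasible d C w5 := by
  induction d, hd using Nat.le_induction with
  | base =>
    intro C hC
    refine feasible_perm _ _ _ (Tuple.sort C) ?_
    have hm := Tuple.monotone_sort C
    obtain ⟨p0, p1, p2, p3, p4⟩ := (hC.perm (Tuple.sort C)).prefixes
    set D := C ∘ Tuple.sort C with hD
    have h01 : D 0 ≤ D 1 := hm (by decide)
    have h12 : D 1 ≤ D 2 := hm (by decide)
    have h23 : D 2 ≤ D 3 := hm (by decide)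
    have h34 : D 3 ≤ D 4 := hm (by decide)
    push_cast at p1 p2 p3 p4
    have := base_sorted ((D 0 + D 1 + D 2 + D 3 + D 4).toNat - 88) (D 0).toNat (D 1).toNat
      (D 2).toNat (D 3).toNat (D 4).toNat (by omega) (by omega) (by omega) (by omega) (by omega)
      (by omega) (by omega) (by omega)
    refine feasible_mono _ _ _ _ (fun i => ?_) this
    fin_cases i <;> simp <;> omega
  | succ d hd ih =>
    intro C hC
    refine feasible_perm _ _ _ (Tuple.sort C) ?_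
    have hm := Tuple.monotone_sort C
    obtain ⟨p0, p1, p2, p3, p4⟩ := (hC.perm (Tuple.sort C)).prefixes
    set D := C ∘ Tuple.sort C with hD
    have h01 : D 0 ≤ D 1 := hm (by decide)
    have h12 : D 1 ≤ D 2 := hm (by decide)
    have h23 : D 2 ≤ D 3 := hm (by decide)
    have h34 : D 3 ≤ D 4 := hm (by decide)
    push_cast at p1 p2 p3 p4
    refine feasible_succ w5 ![0, 4, 4, 6, 7] d D (by decide +kernel) ?_
    have key : SymR d ![D 0, D 1 - 4, D 2 - 4, D 3 - 6, D 4 - 7] := by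
      refine symR_of _ _ _ _ _ _ fun b0 b1 b2 b3 b4 => ?_
      cases b0 <;> cases b1 <;> cases b2 <;> cases b3 <;> cases b4 <;> simp [Wc, cc] <;> omega
    refine feasible_mono _ _ _ _ (fun i => ?_) (ih _ key)
    fin_cases i <;> simp

theorem Ici5 : Finset.Ici (0 : Fin 5) = {0, 1, 2, 3, 4} ∧ Finset.Ici (1 : Fin 5) = {1, 2, 3, 4} ∧
    Finset.Ici (2 : Fin 5) = {2, 3, 4} ∧ Finset.Ici (3 : Fin 5) = {3, 4} ∧
    Finset.Ici (4 : Fin 5) = {4} := by decide

theorem mem_region5 (d : ℕ) (c C : Fin 5 → ℤ) : C ∈ region d w5 c ↔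
    (C 1 ≤ C 0 ∧ C 2 ≤ C 1 ∧ C 3 ≤ C 2 ∧ C 4 ≤ C 3) ∧
      (21 * (d : ℤ) + c 0 ≤ C 0 + C 1 + C 2 + C 3 + C 4 ∧
       14 * (d : ℤ) + c 1 ≤ C 1 + C 2 + C 3 + C 4 ∧ 8 * (d : ℤ) + c 2 ≤ C 2 + C 3 + C 4 ∧
       4 * (d : ℤ) + c 3 ≤ C 3 + C 4 ∧ c 4 ≤ C 4) := by
  obtain ⟨i0, i1, i2, i3, i4⟩ := Ici5
  unfold region
  rw [Set.mem_ofPred_eq, Fin.antitone_iff_succ_le]
  refine and_congr ?_ ?_
  · simp [Fin.forall_fin_succ]
  · constructor
    · intro h
      have h0 := h 0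
      have h1 := h 1
      have h2 := h 2
      have h3 := h 3
      have h4 := h 4
      rw [i0] at h0
      rw [i1] at h1
      rw [i2] at h2
      rw [i3] at h3
      rw [i4] at h4
      simp [w5] at h0 h1 h2 h3 h4
      refine ⟨by linarith, by linarith, by linarith, by linarith, by linarith⟩
    · rintro ⟨h0, h1, h2, h3, h4⟩ i
      fin_cases i
      · change (d : ℤ) * (∑ j ∈ Finset.Ici (0 : Fin 5), (w5 j : ℤ)) + c 0 ≤
          ∑ j ∈ Finset.Ici (0 : Fin 5), C j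
        rw [i0]; simp [w5]; linarith
      · change (d : ℤ) * (∑ j ∈ Finset.Ici (1 : Fin 5), (w5 j : ℤ)) + c 1 ≤
          ∑ j ∈ Finset.Ici (1 : Fin 5), C j
        rw [i1]; simp [w5]; linarith
      · change (d : ℤ) * (∑ j ∈ Finset.Ici (2 : Fin 5), (w5 j : ℤ)) + c 2 ≤
          ∑ j ∈ Finset.Ici (2 : Fin 5), C j
        rw [i2]; simp [w5]; linarith
      · change (d : ℤ) * (∑ j ∈ Finset.Ici (3 : Fin 5), (w5 j : ℤ)) + c 3 ≤
          ∑ j ∈ Finset.Ici (3 : Fin 5), C j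
        rw [i3]; simp [w5]; linarith
      · change (d : ℤ) * (∑ j ∈ Finset.Ici (4 : Fin 5), (w5 j : ℤ)) + c 4 ≤
          ∑ j ∈ Finset.Ici (4 : Fin 5), C j
        rw [i4]; simp [w5]; linarith

theorem feasible_of_region (d : ℕ) (hd : 4 ≤ d) (C : Fin 5 → ℤ) (hC : C ∈ region d w5 c5) :
    Feasible d C w5 := by
  rw [mem_region5] at hC
  obtain ⟨⟨s0, s1, s2, s3⟩, h0, h1, h2, h3, h4⟩ := hC
  simp [c5] at h0 h1 h2 h3 h4
  have key : SymR d ![C 0, C 1, C 2, C 3, C 4] := by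
    refine symR_of _ _ _ _ _ _ fun b0 b1 b2 b3 b4 => ?_
    cases b0 <;> cases b1 <;> cases b2 <;> cases b3 <;> cases b4 <;> simp [Wc, cc] <;> omega
  refine feasible_mono _ _ _ _ (fun i => ?_) (feasible_of_symR d hd _ key)
  fin_cases i <;> simp

theorem strict_region (d : ℕ) (hd : 4 ≤ d) : region d w5 (bSuffix w5) ⊂ region d w5 c5 := by
  rw [bSuffix_w5]
  refine ⟨fun C hC => ?_, fun h => ?_⟩
  · rw [mem_region5] at hC ⊢
    obtain ⟨hs, h0, h1, h2, h3, h4⟩ := hC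
    simp [c5] at h0 h1 h2 h3 h4 ⊢
    exact ⟨hs, by linarith, by linarith, by linarith, by linarith, by linarith⟩
  · have h1 : (![7 * (d : ℤ) - 1, 6 * d - 1, 4 * d + 3, 4 * d + 3, 0] : Fin 5 → ℤ) ∈
        region d w5 c5 := by
      rw [mem_region5]
      simp [c5]
      omega
    have h2 := h h1
    rw [mem_region5] at h2
    have := h2.2.1
    simp at this
    omega

end Pool.Agent.MP_bdabc0_co
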